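import Pool.Agent.Lib.MP_a31e1e_gt.H88.Kite

/-!
# CWA: the arcs
-/

open Set Metric Filter Topology

namespace Pool.Agent.Tight.H88

/-- `qW` in terms of square roots -/
theorem qW_eq (ε β σ : ℝ) (hb0 : 0 ≤ β) (hb1 : β ≤ 1) :
    qW ε β σ = -3 + 12 * σ - 4 * σ ^ 2 * (1 - √(β * (1 - β)) ^ 2) +
      ε * (8 * σ * (√(β * (1 - β)) * √(3 - σ))) := by
  have hv : 0 ≤ β * (1 - β) := mul_nonneg hb0 (by linarith)
  unfold qW
  rw [Real.sqrt_mul hv, Real.sq_sqrt hv]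
  ring

theorem t_bounds (β : ℝ) (hb0 : 0 ≤ β) (hb1 : β ≤ 1) :
    0 ≤ √(β * (1 - β)) ∧ √(β * (1 - β)) ≤ 1 / 2 := by
  refine ⟨Real.sqrt_nonneg _, ?_⟩
  rw [Real.sqrt_le_left (by norm_num)]
  nlinarith [sq_nonneg (β - 1 / 2)]

theorem qW_mono {ε β σ₁ σ₂ : ℝ} (he : ε = 1 ∨ ε = -1) (hb0 : 0 ≤ β) (hb1 : β ≤ 1)
    (h0 : 0 ≤ σ₁) (h12 : σ₁ < σ₂) (h2 : σ₂ ≤ 1) : qW ε β σ₁ < qW ε β σ₂ := by
  rw [qW_eq ε β σ₁ hb0 hb1, qW_eq ε β σ₂ hb0 hb1]
  obtain ⟨ht0, ht1⟩ := t_bounds β hb0 hb1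
  set t := √(β * (1 - β)) with ht
  have hr1 : √(3 - σ₁) ^ 2 = 3 - σ₁ := Real.sq_sqrt (by linarith)
  have hr2 : √(3 - σ₂) ^ 2 = 3 - σ₂ := Real.sq_sqrt (by linarith)
  have hr1n := Real.sqrt_nonneg (3 - σ₁)
  have hr2n := Real.sqrt_nonneg (3 - σ₂)
  set r₁ := √(3 - σ₁) with hr₁
  set r₂ := √(3 - σ₂) with hr₂
  have hr2g : 7 / 5 ≤ r₂ := by
    by_contra hcon
    push Not at hcon
    nlinarith
  have hr1g : r₂ < r₁ := by
    by_contra hcon
    push Not at hcon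
    nlinarith
  -- the quotient
  have hB : σ₂ * r₂ - σ₁ * r₁ = (σ₂ - σ₁) * r₂ - σ₁ * (r₁ - r₂) := by ring
  have hdiff : (r₁ - r₂) * (r₁ + r₂) = σ₂ - σ₁ := by nlinarith
  have hk : 0 ≤ 1 - t ^ 2 := by nlinarith
  rcases he with rfl | rfl
  · -- increasing
    have h3 : σ₁ * (r₁ - r₂) ≤ (σ₂ - σ₁) * r₂ := by
      have : (r₁ - r₂) * (r₁ + r₂) * 1 ≥ (r₁ - r₂) * (14 / 5) := by nlinarith
      nlinarith
    have h4 : 0 ≤ σ₂ * r₂ - σ₁ * r₁ := by rw [hB]; linarith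
    have h5 : 0 ≤ t * (σ₂ * r₂ - σ₁ * r₁) := mul_nonneg ht0 h4
    have h6 : (σ₂ ^ 2 - σ₁ ^ 2) * (1 - t ^ 2) ≤ (σ₂ ^ 2 - σ₁ ^ 2) := by
      have : 0 ≤ σ₂ ^ 2 - σ₁ ^ 2 := by nlinarith
      nlinarith [sq_nonneg t]
    nlinarith
  · have h3 : t * (σ₂ * r₂ - σ₁ * r₁) ≤ t * ((σ₂ - σ₁) * r₂) := by
      apply mul_le_mul_of_nonneg_left _ ht0
      rw [hB]
      have := mul_nonneg h0 (sub_nonneg.2 hr1g.le)
      linarith
    have h6 : (σ₂ ^ 2 - σ₁ ^ 2) * (1 - t ^ 2) ≤ (σ₂ - σ₁) * (2 * σ₂) * (1 - t ^ 2) := by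
      apply mul_le_mul_of_nonneg_right _ hk
      nlinarith
    have h7 : 0 < 12 - 8 * σ₂ * (1 - t ^ 2) - 8 * t * r₂ := by
      have e1 : 12 - 8 * σ₂ * (1 - t ^ 2) - 8 * t * r₂ - (12 - 6 * σ₂ - 4 * r₂) =
          (1 / 2 - t) * (8 * r₂ - 8 * σ₂ * (1 / 2 + t)) := by ring
      have e2 : 0 ≤ (1 / 2 - t) * (8 * r₂ - 8 * σ₂ * (1 / 2 + t)) := by
        apply mul_nonneg (by linarith)
        nlinarith
      have e3 : 0 < 12 - 6 * σ₂ - 4 * r₂ := by
        have : σ₂ = 3 - r₂ ^ 2 := by linarith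
        have h8 : 2 ≤ r₂ ^ 2 := by linarith
        rw [this]
        have h9 : 141 / 100 < r₂ := by
          by_contra hcon
          push Not at hcon
          nlinarith
        nlinarith
      linarith
    have h8 := mul_pos (sub_pos.2 h12) h7
    nlinarith

theorem qW_pos {ε β σ : ℝ} (he : ε = 1 ∨ ε = -1) (hb0 : 0 ≤ β) (hb1 : β ≤ 1)
    (h1 : 1 ≤ σ) (h2 : σ ≤ 2) : 0 < qW ε β σ := by
  rw [qW_eq ε β σ hb0 hb1]
  obtain ⟨ht0, ht1⟩ := t_bounds β hb0 hb1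
  set t := √(β * (1 - β)) with ht
  have hr : √(3 - σ) ^ 2 = 3 - σ := Real.sq_sqrt (by linarith)
  have hrn := Real.sqrt_nonneg (3 - σ)
  set r := √(3 - σ) with hr₁
  have hr1 : 1 ≤ r := by
    by_contra hcon
    push Not at hcon
    nlinarith
  have hr2 : r ≤ 142 / 100 := by
    by_contra hcon
    push Not at hcon
    nlinarith
  have hs : σ = 3 - r ^ 2 := by linarith
  -- the value for `ε = -1`, `t = 1/2`
  have hP : 0 < -3 + 12 * σ - 3 * σ ^ 2 - 4 * σ * r := by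
    have e : -3 + 12 * σ - 3 * σ ^ 2 - 4 * σ * r = 1 - (r - 1) ^ 3 * (8 + 3 * (r - 1)) := by
      rw [hs]; ring
    rw [e]
    have h3 : (r - 1) ^ 3 ≤ (42 / 100) ^ 3 :=
      pow_le_pow_left₀ (by linarith) (by linarith) 3
    have h4 : 0 ≤ (r - 1) ^ 3 := pow_nonneg (by linarith) 3
    nlinarith
  have hm : -3 + 12 * σ - 3 * σ ^ 2 - 4 * σ * r ≤
      -3 + 12 * σ - 4 * σ ^ 2 * (1 - t ^ 2) - 8 * σ * (t * r) := by
    have e : -3 + 12 * σ - 4 * σ ^ 2 * (1 - t ^ 2) - 8 * σ * (t * r) -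
        (-3 + 12 * σ - 3 * σ ^ 2 - 4 * σ * r) =
        4 * σ * ((1 / 2 - t) * (2 * r - σ * (1 / 2 + t))) := by ring
    have : 0 ≤ 4 * σ * ((1 / 2 - t) * (2 * r - σ * (1 / 2 + t))) := by
      apply mul_nonneg (by linarith)
      apply mul_nonneg (by linarith)
      nlinarith
    linarith
  have htr : 0 ≤ 8 * σ * (t * r) := by positivity
  rcases he with rfl | rfl
  · nlinarith
  · nlinarith

theorem qW_zero (ε β : ℝ) : qW ε β 0 = -3 := by
  unfold qW; ring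

theorem qW_continuous (ε : ℝ) : Continuous fun p : ℝ × ℝ => qW ε p.1 p.2 := by
  unfold qW
  fun_prop

/-- the zero -/
theorem exists_zero {ε β : ℝ} (he : ε = 1 ∨ ε = -1) (hb0 : 0 ≤ β) (hb1 : β ≤ 1) :
    ∃ a, 0 < a ∧ a < 1 ∧ qW ε β a = 0 := by
  have hc : ContinuousOn (fun σ => qW ε β σ) (Icc 0 1) := by
    have := (qW_continuous ε).comp (Continuous.prodMk_right β)
    exact this.continuousOn
  have h := intermediate_value_Ioo (zero_le_one (α := ℝ)) hc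
  have h0 : (0 : ℝ) ∈ Ioo (qW ε β 0) (qW ε β 1) := by
    refine ⟨by rw [qW_zero]; norm_num, qW_pos he hb0 hb1 le_rfl (by norm_num)⟩
  obtain ⟨a, ha, haz⟩ := h h0
  exact ⟨a, ha.1, ha.2, haz⟩

theorem arc_eq {ε β a : ℝ} (he : ε = 1 ∨ ε = -1) (hb0 : 0 ≤ β) (hb1 : β ≤ 1)
    (h0 : 0 < a) (h1 : a < 1) (hz : qW ε β a = 0) : arc ε β = a := by
  have : IsLeast {σ : ℝ | 0 ≤ σ ∧ 0 ≤ qW ε β σ} a := by
    refine ⟨⟨h0.le, hz.ge⟩, ?_⟩
    rintro σ ⟨hs0, hs⟩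
    by_contra hcon
    push Not at hcon
    have := qW_mono he hb0 hb1 hs0 hcon h1.le
    linarith
  exact this.csInf_eq

theorem arc_spec {ε β : ℝ} (he : ε = 1 ∨ ε = -1) (hb0 : 0 ≤ β) (hb1 : β ≤ 1) :
    0 < arc ε β ∧ arc ε β < 1 ∧ qW ε β (arc ε β) = 0 := by
  obtain ⟨a, h0, h1, hz⟩ := exists_zero he hb0 hb1
  rw [arc_eq he hb0 hb1 h0 h1 hz]
  exact ⟨h0, h1, hz⟩

theorem arc_pos {ε β σ : ℝ} (he : ε = 1 ∨ ε = -1) (hb0 : 0 ≤ β) (hb1 : β ≤ 1) (h2 : σ ≤ 2)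
    (h : arc ε β < σ) : 0 < qW ε β σ := by
  obtain ⟨h0, h1, hz⟩ := arc_spec he hb0 hb1
  rcases le_total σ 1 with hs | hs
  · rw [← hz]
    exact qW_mono he hb0 hb1 h0.le h hs
  · exact qW_pos he hb0 hb1 hs h2

theorem arc_neg {ε β σ : ℝ} (he : ε = 1 ∨ ε = -1) (hb0 : 0 ≤ β) (hb1 : β ≤ 1) (hs : 0 ≤ σ)
    (h : σ < arc ε β) : qW ε β σ < 0 := by
  obtain ⟨h0, h1, hz⟩ := arc_spec he hb0 hb1
  rw [← hz]
  exact qW_mono he hb0 hb1 hs h h1.le

theorem arc_cont {ε : ℝ} (he : ε = 1 ∨ ε = -1) : ContinuousOn (arc ε) (Icc 0 1) := by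
  intro β₀ hβ₀
  obtain ⟨h0, h1, hz⟩ := arc_spec he hβ₀.1 hβ₀.2
  rw [ContinuousWithinAt, tendsto_order]
  constructor
  · intro a ha
    -- choose a point between
    obtain ⟨b, hb1, hb2⟩ := exists_between (max_lt ha h0)
    have hb0 : 0 < b := (le_max_right _ _).trans_lt hb1
    have hba : a < b := (le_max_left _ _).trans_lt hb1
    have hneg : qW ε β₀ b < 0 := arc_neg he hβ₀.1 hβ₀.2 hb0.le hb2
    have hc : ContinuousAt (fun β => qW ε β b) β₀ :=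
      ((qW_continuous ε).comp (Continuous.prodMk_left b)).continuousAt
    have hev : ∀ᶠ β in 𝓝[Icc 0 1] β₀, qW ε β b < 0 :=
      (hc.eventually_lt_const hneg).filter_mono nhdsWithin_le_nhds
    filter_upwards [hev, self_mem_nhdsWithin] with β hβ hβm
    by_contra hcon
    push Not at hcon
    have h3 : arc ε β < b := hcon.trans_lt hba
    have := arc_pos he hβm.1 hβm.2 (by linarith) h3
    linarith
  · intro a ha
    obtain ⟨b, hb1, hb2⟩ := exists_between (lt_min ha h1)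
    have hb3 : b < 1 := hb2.trans_le (min_le_right _ _)
    have hba : b < a := hb2.trans_le (min_le_left _ _)
    have hpos : 0 < qW ε β₀ b := arc_pos he hβ₀.1 hβ₀.2 (by linarith) hb1
    have hc : ContinuousAt (fun β => qW ε β b) β₀ :=
      ((qW_continuous ε).comp (Continuous.prodMk_left b)).continuousAt
    have hev : ∀ᶠ β in 𝓝[Icc 0 1] β₀, 0 < qW ε β b :=
      (hc.eventually_const_lt hpos).filter_mono nhdsWithin_le_nhds
    filter_upwards [hev, self_mem_nhdsWithin] with β hβ hβm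
    by_contra hcon
    push Not at hcon
    have h3 : b < arc ε β := hba.trans_le hcon
    have := arc_neg he hβm.1 hβm.2 (by linarith) h3
    linarith

/-! ### the end of the ray -/

theorem K_pos (β : ℝ) : 0 < 1 - β + β ^ 2 := by nlinarith [sq_nonneg (β - 1 / 2)]
theorem K_ge (β : ℝ) : 3 / 4 ≤ 1 - β + β ^ 2 := by nlinarith [sq_nonneg (β - 1 / 2)]

theorem far_cont : Continuous far := by
  unfold far
  apply Continuous.div (by fun_prop) (by fun_prop)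
  intro β
  have h1 := le_max_left β (1 - β)
  have h2 := le_max_right β (1 - β)
  linarith

/-- the smaller root -/
noncomputable def r1 (ρ β : ℝ) : ℝ :=
  3 / (2 * (1 - β + β ^ 2)) * (1 - √(1 - (1 - β + β ^ 2) * (4 - 4 * ρ ^ 2) / 3))

theorem farC_eq (ρ β : ℝ) : farC ρ β = min (far β) (r1 ρ β) := rfl

theorem farC_cont (ρ : ℝ) : Continuous (farC ρ) := by
  have : Continuous (r1 ρ) := by
    unfold r1
    apply Continuous.mul
    · apply Continuous.div (by fun_prop) (by fun_prop)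
      intro β
      have := K_pos β
      positivity
    · fun_prop
  exact far_cont.min this

theorem far_le (β : ℝ) (h0 : 0 ≤ β) (h1 : β ≤ 1) : far β ≤ 3 / (2 * (1 - β + β ^ 2)) := by
  unfold far
  have hK := K_pos β
  apply div_le_div_of_nonneg_left (by norm_num) (by positivity)
  rcases le_total (1 / 2) β with h | h
  · have := le_max_left β (1 - β)
    nlinarith
  · have := le_max_right β (1 - β)
    nlinarith

theorem nn_sub (ρ β σ : ℝ) : (4 - 4 * σ + 4 / 3 * σ ^ 2 * (1 - β + β ^ 2)) - 4 * ρ ^ 2 =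
    4 / 3 * (1 - β + β ^ 2) * ((3 / (2 * (1 - β + β ^ 2)) - σ) ^ 2 -
      (3 / (2 * (1 - β + β ^ 2))) ^ 2 * (1 - (1 - β + β ^ 2) * (4 - 4 * ρ ^ 2) / 3)) := by
  have hK := (K_pos β).ne'
  field_simp
  ring

theorem le_r1 {ρ β σ : ℝ} (hσ : σ ≤ 3 / (2 * (1 - β + β ^ 2)))
    (h : 4 * ρ ^ 2 ≤ 4 - 4 * σ + 4 / 3 * σ ^ 2 * (1 - β + β ^ 2)) : σ ≤ r1 ρ β := by
  have hK := K_pos β
  have e := nn_sub ρ β σ
  unfold r1
  set K := 1 - β + β ^ 2 with hKd
  set c := 3 / (2 * K) with hc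
  set D := 1 - K * (4 - 4 * ρ ^ 2) / 3 with hD
  have hcp : 0 < c := by positivity
  have h1 : 0 ≤ (c - σ) ^ 2 - c ^ 2 * D := by
    by_contra hcon
    push Not at hcon
    have : 4 / 3 * K * ((c - σ) ^ 2 - c ^ 2 * D) < 0 :=
      mul_neg_of_pos_of_neg (by positivity) hcon
    linarith
  have h2 : c * √D ≤ c - σ := by
    rcases le_total D 0 with hD0 | hD0
    · rw [Real.sqrt_eq_zero_of_nonpos hD0]; linarith
    · apply le_of_sq_le_sq _ (by linarith)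
      rw [mul_pow, Real.sq_sqrt hD0]; linarith
  linarith

theorem nn_ge_of_le_r1 {ρ β σ : ℝ} (h : σ ≤ r1 ρ β) :
    4 * ρ ^ 2 ≤ 4 - 4 * σ + 4 / 3 * σ ^ 2 * (1 - β + β ^ 2) := by
  have hK := K_pos β
  have e := nn_sub ρ β σ
  unfold r1 at h
  set K := 1 - β + β ^ 2 with hKd
  set c := 3 / (2 * K) with hc
  set D := 1 - K * (4 - 4 * ρ ^ 2) / 3 with hD
  have hcp : 0 < c := by positivity
  have hs := Real.sqrt_nonneg D
  have h2 : c * √D ≤ c - σ := by linarith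
  have h3 : D ≤ √D ^ 2 := by
    rcases le_total D 0 with hD0 | hD0
    · nlinarith
    · rw [Real.sq_sqrt hD0]
  have h4 : 0 ≤ c * √D := by positivity
  have h5 : (c * √D) ^ 2 ≤ (c - σ) ^ 2 := pow_le_pow_left₀ h4 h2 2
  have h6 : c ^ 2 * D ≤ c ^ 2 * √D ^ 2 := mul_le_mul_of_nonneg_left h3 (by positivity)
  have h7 : 0 ≤ 4 / 3 * K * ((c - σ) ^ 2 - c ^ 2 * D) := by
    apply mul_nonneg (by positivity)
    nlinarith
  linarith

theorem nn_gt_of_lt_r1 {ρ β σ : ℝ} (h : σ < r1 ρ β) :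
    4 * ρ ^ 2 < 4 - 4 * σ + 4 / 3 * σ ^ 2 * (1 - β + β ^ 2) := by
  have hK := K_pos β
  have e := nn_sub ρ β σ
  unfold r1 at h
  set K := 1 - β + β ^ 2 with hKd
  set c := 3 / (2 * K) with hc
  set D := 1 - K * (4 - 4 * ρ ^ 2) / 3 with hD
  have hcp : 0 < c := by positivity
  have hs := Real.sqrt_nonneg D
  have h2 : c * √D < c - σ := by linarith
  have h3 : D ≤ √D ^ 2 := by
    rcases le_total D 0 with hD0 | hD0
    · nlinarith
    · rw [Real.sq_sqrt hD0]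
  have h4 : 0 ≤ c * √D := by positivity
  have h5 : (c * √D) ^ 2 < (c - σ) ^ 2 := pow_lt_pow_left₀ h2 h4 (by norm_num)
  have h6 : c ^ 2 * D ≤ c ^ 2 * √D ^ 2 := mul_le_mul_of_nonneg_left h3 (by positivity)
  have h7 : 0 < 4 / 3 * K * ((c - σ) ^ 2 - c ^ 2 * D) := by
    apply mul_pos (by positivity)
    nlinarith
  linarith

theorem nn_eq_of_eq_r1 {ρ β σ : ℝ} (h : σ = r1 ρ β) (h' : σ < 3 / (2 * (1 - β + β ^ 2))) :
    4 - 4 * σ + 4 / 3 * σ ^ 2 * (1 - β + β ^ 2) = 4 * ρ ^ 2 := by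
  have hK := K_pos β
  have e := nn_sub ρ β σ
  unfold r1 at h
  set K := 1 - β + β ^ 2 with hKd
  set c := 3 / (2 * K) with hc
  set D := 1 - K * (4 - 4 * ρ ^ 2) / 3 with hD
  have hcp : 0 < c := by positivity
  have hs : 0 < √D := by
    by_contra hcon
    push Not at hcon
    have := mul_nonpos_of_nonneg_of_nonpos hcp.le hcon
    linarith
  have hD0 : 0 ≤ D := (Real.sqrt_pos.1 hs).le
  have h1 : c - σ = c * √D := by rw [h]; ring
  have h2 : (c - σ) ^ 2 - c ^ 2 * D = 0 := by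
    rw [h1, mul_pow, Real.sq_sqrt hD0]; ring
  rw [h2, mul_zero] at e
  linarith

theorem arcs : ArcStatement := by
  refine ⟨fun ε he => ⟨arc_cont he, fun β h0 h1 => ?_⟩, ⟨?_, ?_⟩, fun ρ hρ hρ' => ?_⟩
  · obtain ⟨ha0, ha1, haz⟩ := arc_spec he h0 h1
    refine ⟨ha0, ha1, fun σ hs0 hs1 => ?_⟩
    have hs2 : σ ≤ 2 := hs1.trans (far_bounds β h0 h1).2
    rcases lt_trichotomy σ (arc ε β) with h | h | h
    · have := arc_neg he h0 h1 hs0 h
      exact ⟨⟨fun h' => absurd h' (not_lt.2 this.le), fun h' => absurd h' (not_lt.2 h.le)⟩,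
        ⟨fun h' => absurd h' this.ne, fun h' => absurd h' h.ne⟩⟩
    · rw [h, haz]
      exact ⟨⟨fun h' => absurd h' (lt_irrefl _), fun h' => absurd h' (lt_irrefl _)⟩,
        ⟨fun _ => rfl, fun _ => rfl⟩⟩
    · have := arc_pos he h0 h1 hs2 h
      exact ⟨⟨fun _ => h, fun _ => this⟩, ⟨fun h' => absurd h' this.ne', fun h' => absurd h' h.ne'⟩⟩
  · unfold arc
    congr 1
    ext σ
    simp [qW]
  · unfold arc
    congr 1
    ext σ
    simp [qW]
  · have hρ2 : 4 * ρ ^ 2 ≤ 1 / 4 := by nlinarith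
    have hfr : ∀ β, 0 ≤ β → β ≤ 1 → 3 / 2 ≤ r1 ρ β := by
      intro β h0 h1
      have hK := K_pos β
      have hK1 : 1 - β + β ^ 2 ≤ 1 := by nlinarith
      apply le_r1
      · rw [div_le_div_iff₀ (by norm_num) (by positivity)]; linarith
      · have := K_ge β
        nlinarith
    refine ⟨far_cont, farC_cont ρ, fun β h0 h1 => ?_, ⟨?_, ?_⟩, fun k β σ h0 h1 hs0 hs1 => ?_⟩
    · rw [farC_eq]
      exact ⟨le_min (far_bounds β h0 h1).1 (hfr β h0 h1), min_le_left _ _⟩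
    · rw [farC_eq]
      have h1 := hfr 0 le_rfl zero_le_one
      have h2 : far 0 = 3 / 2 := by unfold far; norm_num
      exact min_eq_left (by rw [h2]; exact h1)
    · rw [farC_eq]
      have h1 := hfr 1 zero_le_one le_rfl
      have h2 : far 1 = 3 / 2 := by unfold far; norm_num
      exact min_eq_left (by rw [h2]; exact h1)
    · rw [kp_nn, farC_eq]
      have hfl := far_le β h0 h1
      refine ⟨fun h => nn_gt_of_lt_r1 (lt_of_lt_of_le h (min_le_right _ _)),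
        fun h => le_min hs1 (le_r1 (hs1.trans hfl) h), fun h h' => ?_, fun h => ?_⟩
      · have h2 : min (far β) (r1 ρ β) = r1 ρ β := by
          rcases min_choice (far β) (r1 ρ β) with h3 | h3
          · rw [h3] at h; exact absurd h h'.ne
          · exact h3
        rw [h2] at h
        exact nn_eq_of_eq_r1 h (lt_of_lt_of_le h' hfl)
      · apply nn_ge_of_le_r1
        rw [h]
        exact min_le_right _ _

end Pool.Agent.Tight.H88
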