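import Pool.Agent.Lib.MP_a31e1e_gt.Interfaces

/-!
# CWBUILD: a finite CW structure from explicit characteristic maps
-/

open Set Metric Topology

set_option linter.unusedSectionVars false

namespace Pool.Agent.Tight.H88

section
variable {Z : Type} [TopologicalSpace Z] [T2Space Z] {S : Set Z} {I : ℕ → Type}
  {Φ : (n : ℕ) → I n → (Fin n → ℝ) → Z}

/-- the characteristic map with values in the subset -/
noncomputable def cm (hm : ∀ n i, MapsTo (Φ n i) (closedBall 0 1) S) (n : ℕ) (i : I n)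
    (x : Fin n → ℝ) : S :=
  haveI := Classical.propDecidable (x ∈ closedBall (0 : Fin n → ℝ) 1)
  if h : x ∈ closedBall (0 : Fin n → ℝ) 1 then ⟨Φ n i x, hm n i h⟩
  else ⟨Φ n i 0, hm n i (mem_closedBall_self zero_le_one)⟩

theorem cm_val (hm : ∀ n i, MapsTo (Φ n i) (closedBall 0 1) S) (n : ℕ) (i : I n)
    {x : Fin n → ℝ} (h : x ∈ closedBall (0 : Fin n → ℝ) 1) :
    ((cm hm n i x : S) : Z) = Φ n i x := by
  unfold cm
  rw [dif_pos h]

theorem cover (hsph : ∀ n i, MapsTo (Φ n i) (sphere 0 1)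
      (⋃ (m < n) (j : I m), Φ m j '' closedBall 0 1)) (n : ℕ) :
    ∀ (i : I n) (x : Fin n → ℝ), x ∈ closedBall (0 : Fin n → ℝ) 1 →
      ∃ m, m ≤ n ∧ ∃ (j : I m), Φ n i x ∈ Φ m j '' ball 0 1 := by
  induction n using Nat.strong_induction_on with
  | _ n ih =>
    intro i x hx
    rcases (mem_closedBall.1 hx).lt_or_eq with h | h
    · exact ⟨n, le_rfl, i, x, mem_ball.2 h, rfl⟩
    · have h1 := hsph n i (mem_sphere.2 h)
      simp only [mem_iUnion] at h1
      obtain ⟨m, hm, j, y, hy, hyx⟩ := h1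
      obtain ⟨k, hk, j', hj'⟩ := ih m hm j y hy
      rw [hyx] at hj'
      exact ⟨k, hk.trans hm.le, j', hj'⟩

end

theorem cwBuild : CWBuildStatement := by
  intro Z _ _ S I Φ hfin hemp hcont hinj hmaps hdisj hsph hcov
  set μ : (n : ℕ) → (i : I n) → (Fin n → ℝ) → S := cm hmaps with hμ
  have hval : ∀ n i (x : Fin n → ℝ), x ∈ closedBall (0 : Fin n → ℝ) 1 →
      ((μ n i x : S) : Z) = Φ n i x := fun n i x hx => cm_val hmaps n i hx
  have hbc : ∀ n, (ball (0 : Fin n → ℝ) 1) ⊆ closedBall 0 1 := fun n => ball_subset_closedBall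
  have hμc : ∀ n i, ContinuousOn (μ n i) (closedBall 0 1) := by
    intro n i
    rw [Topology.IsInducing.subtypeVal.continuousOn_iff]
    exact (hcont n i).congr fun x hx => hval n i x hx
  have hμi : ∀ n i, InjOn (μ n i) (ball 0 1) := by
    intro n i x hx y hy hxy
    apply hinj n i hx hy
    rw [← hval n i x (hbc n hx), ← hval n i y (hbc n hy), hxy]
  -- the partial equivalences
  let e : (n : ℕ) → (i : I n) → PartialEquiv (Fin n → ℝ) S := fun n i =>
    (hμi n i).bijOn_image.toPartialEquiv (μ n i) (ball 0 1) (μ n i '' ball 0 1)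
  have he : ∀ n i, (e n i : (Fin n → ℝ) → S) = μ n i := fun n i => rfl
  have hes : ∀ n i, (e n i).source = ball 0 1 := fun n i => rfl
  have het : ∀ n i, (e n i).target = μ n i '' ball 0 1 := fun n i => rfl
  have hlow : ∀ n i (x : Fin n → ℝ), x ∈ ball (0 : Fin n → ℝ) 1 → ∀ y ∈ sphere (0 : Fin n → ℝ) 1,
      Φ n i x ≠ Φ n i y := by
    intro n i x hx y hy hxy
    have h1 := hsph n i hy
    simp only [mem_iUnion] at h1
    obtain ⟨m, hm, j, z, hz, hzy⟩ := h1
    obtain ⟨k, hk, j', hj'⟩ := cover hsph m j z hz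
    rw [hzy, ← hxy] at hj'
    have := hdisj n i k j' ⟨Φ n i x, ⟨x, hx, rfl⟩, hj'⟩
    have h2 : n = k := congrArg Sigma.fst this
    omega
  have hsymm : ∀ n i, ContinuousOn (e n i).symm (e n i).target := by
    intro n i
    rw [het]
    rintro _ ⟨x, hx, rfl⟩
    have hl : (e n i).symm (μ n i x) = x := (e n i).left_inv hx
    rw [ContinuousWithinAt, hl]
    intro U hU
    rw [Filter.mem_map]
    obtain ⟨V, hVU, hVo, hxV⟩ := _root_.mem_nhds_iff.1 hU
    have hK : IsCompact (closedBall (0 : Fin n → ℝ) 1 \ V) :=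
      (isCompact_closedBall 0 1).diff hVo
    have hKc : IsClosed (μ n i '' (closedBall (0 : Fin n → ℝ) 1 \ V)) :=
      (hK.image_of_continuousOn ((hμc n i).mono diff_subset)).isClosed
    have hnot : μ n i x ∉ μ n i '' (closedBall (0 : Fin n → ℝ) 1 \ V) := by
      rintro ⟨y, hy, hyx⟩
      have h1 : Φ n i x = Φ n i y := by
        rw [← hval n i x (hbc n hx), ← hval n i y hy.1, hyx]
      rcases (mem_closedBall.1 hy.1).lt_or_eq with h | h
      · have := hinj n i hx (mem_ball.2 h) h1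
        exact hy.2 (this ▸ hxV)
      · exact hlow n i x hx y (mem_sphere.2 h) h1
    rw [mem_nhdsWithin]
    refine ⟨_, hKc.isOpen_compl, hnot, ?_⟩
    rintro _ ⟨h1, y, hy, rfl⟩
    rw [mem_preimage]
    have hl' : (e n i).symm (μ n i y) = y := (e n i).left_inv hy
    rw [hl']
    by_contra hcon
    exact h1 ⟨y, ⟨hbc n hy, fun hyV => hcon (hVU hyV)⟩, rfl⟩
  have hpd : (univ : Set (Σ n, I n)).PairwiseDisjoint (fun ni ↦ e ni.1 ni.2 '' ball 0 1) := by
    rintro ⟨n, i⟩ - ⟨m, j⟩ - hne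
    rw [Function.onFun, Set.disjoint_left]
    rintro _ ⟨x, hx, rfl⟩ ⟨y, hy, hyx⟩
    apply hne
    apply hdisj n i m j
    refine ⟨Φ n i x, ⟨x, hx, rfl⟩, y, hy, ?_⟩
    have h1 : ((μ m j y : S) : Z) = ((μ n i x : S) : Z) := congrArg Subtype.val hyx
    rw [hval m j y (hbc m hy), hval n i x (hbc n hx)] at h1
    exact h1
  have hmt : ∀ n i, MapsTo (e n i) (sphere 0 1)
      (⋃ (m < n) (j : I m), e m j '' closedBall 0 1) := by
    intro n i x hx
    have h1 := hsph n i hx
    simp only [mem_iUnion] at h1 ⊢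
    obtain ⟨m, hm, j, z, hz, hzy⟩ := h1
    refine ⟨m, hm, j, z, hz, ?_⟩
    apply Subtype.ext
    rw [he, he, hval m j z hz, hval n i x (sphere_subset_closedBall hx), hzy]
  have hun : ⋃ (n : ℕ) (j : I n), e n j '' closedBall 0 1 = (univ : Set S) := by
    rw [eq_univ_iff_forall]
    rintro ⟨z, hz⟩
    obtain ⟨n, i, x, hx, hxz⟩ := hcov z hz
    simp only [mem_iUnion]
    exact ⟨n, i, x, hx, Subtype.ext (by rw [he, hval n i x hx, hxz])⟩
  have hev : ∀ᶠ n in Filter.atTop, IsEmpty (I n) :=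
    Filter.eventually_atTop.2 ⟨3, fun n hn => hemp n (by omega)⟩
  refine ⟨Topology.CWComplex.mkFinite (univ : Set S) I e hev hfin hes hμc hsymm hpd hmt hun,
    hfin, hemp, rfl⟩

end Pool.Agent.Tight.H88
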