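import Pool.Agent.Lib.MP_a31e1e_gt.CWDefs

/-!
# CWK: kite coordinates
-/

open Set Metric

namespace Pool.Agent.Tight.H88

theorem sq3 : √(3 : ℝ) ^ 2 = 3 := Real.sq_sqrt (by norm_num)
theorem sq3_ne : √(3 : ℝ) ≠ 0 := by positivity

@[simp] theorem pl_0 (x y : ℝ) : (pl x y) 0 = x := rfl
@[simp] theorem pl_1 (x y : ℝ) : (pl x y) 1 = y := rfl
@[simp] theorem pl_2 (x y : ℝ) : (pl x y) 2 = 0 := rfl

theorem fe_ell (a0 a1 a2 : ℝ) (h : a0 + a1 + a2 = 3) :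
    ell 0 (fe a0 a1 a2) = a0 ∧ ell 1 (fe a0 a1 a2) = a1 ∧ ell 2 (fe a0 a1 a2) = a2 := by
  have h3 := sq3_ne
  have e : √(3 : ℝ) * ((a1 - a2) / √3) = a1 - a2 := by field_simp
  refine ⟨?_, ?_, ?_⟩
  · show 1 - (1 - a0) = a0
    ring
  · show 1 + ((1 - a0) + √3 * ((a1 - a2) / √3)) / 2 = a1
    rw [e]; linarith
  · show 1 + ((1 - a0) - √3 * ((a1 - a2) / √3)) / 2 = a2
    rw [e]; linarith

theorem ell_sum (x : E3) : ell 0 x + ell 1 x + ell 2 x = 3 := by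
  show (1 - x 1) + (1 + (x 1 + √3 * x 0) / 2) + (1 + (x 1 - √3 * x 0) / 2) = 3
  ring

theorem nn_ell (x : E3) : nn x = (1 - ell 0 x) ^ 2 + (ell 1 x - ell 2 x) ^ 2 / 3 := by
  show x 0 ^ 2 + x 1 ^ 2 = (1 - (1 - x 1)) ^ 2 +
    ((1 + (x 1 + √3 * x 0) / 2) - (1 + (x 1 - √3 * x 0) / 2)) ^ 2 / 3
  linear_combination (-(x 0) ^ 2 / 3) * sq3

theorem tt_ell (x : E3) : tt x = 4 * (ell 0 x * ell 1 x * ell 2 x) := by
  show 4 - 3 * (x 0 ^ 2 + x 1 ^ 2) - (x 1 ^ 3 - 3 * x 0 ^ 2 * x 1) = 4 * ((1 - x 1) *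
    (1 + (x 1 + √3 * x 0) / 2) * (1 + (x 1 - √3 * x 0) / 2))
  linear_combination (x 0 ^ 2 * (1 - x 1)) * sq3

theorem ell_inj (x y : E3) (h : ∀ j, ell j x = ell j y) : x 0 = y 0 ∧ x 1 = y 1 := by
  have h0 : 1 - x 1 = 1 - y 1 := h 0
  have h1 : 1 + (x 1 + √3 * x 0) / 2 = 1 + (y 1 + √3 * y 0) / 2 := h 1
  have h10 : x 1 = y 1 := by linarith
  refine ⟨?_, h10⟩
  have : √3 * x 0 = √3 * y 0 := by rw [h10] at h1; linarith
  exact mul_left_cancel₀ sq3_ne this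

theorem kp_ell (k : Fin 3) (β σ : ℝ) : ell k (kp k β σ) = 3 - σ ∧
    ell (k + 1) (kp k β σ) = σ * β ∧ ell (k + 2) (kp k β σ) = σ * (1 - β) := by
  fin_cases k
  · obtain ⟨h0, h1, h2⟩ := fe_ell (3 - σ) (σ * β) (σ * (1 - β)) (by ring)
    exact ⟨h0, h1, h2⟩
  · obtain ⟨h0, h1, h2⟩ := fe_ell (σ * (1 - β)) (3 - σ) (σ * β) (by ring)
    exact ⟨h1, h2, h0⟩
  · obtain ⟨h0, h1, h2⟩ := fe_ell (σ * β) (σ * (1 - β)) (3 - σ) (by ring)
    exact ⟨h2, h0, h1⟩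

theorem kp_nn (k : Fin 3) (β σ : ℝ) :
    nn (kp k β σ) = 4 - 4 * σ + 4 / 3 * σ ^ 2 * (1 - β + β ^ 2) := by
  rw [nn_ell]
  fin_cases k
  · obtain ⟨h0, h1, h2⟩ := fe_ell (3 - σ) (σ * β) (σ * (1 - β)) (by ring)
    show (1 - ell 0 (fe (3 - σ) (σ * β) (σ * (1 - β)))) ^ 2 +
      (ell 1 (fe (3 - σ) (σ * β) (σ * (1 - β))) -
        ell 2 (fe (3 - σ) (σ * β) (σ * (1 - β)))) ^ 2 / 3 = _
    rw [h0, h1, h2]; ring
  · obtain ⟨h0, h1, h2⟩ := fe_ell (σ * (1 - β)) (3 - σ) (σ * β) (by ring)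
    show (1 - ell 0 (fe (σ * (1 - β)) (3 - σ) (σ * β))) ^ 2 +
      (ell 1 (fe (σ * (1 - β)) (3 - σ) (σ * β)) -
        ell 2 (fe (σ * (1 - β)) (3 - σ) (σ * β))) ^ 2 / 3 = _
    rw [h0, h1, h2]; ring
  · obtain ⟨h0, h1, h2⟩ := fe_ell (σ * β) (σ * (1 - β)) (3 - σ) (by ring)
    show (1 - ell 0 (fe (σ * β) (σ * (1 - β)) (3 - σ))) ^ 2 +
      (ell 1 (fe (σ * β) (σ * (1 - β)) (3 - σ)) -
        ell 2 (fe (σ * β) (σ * (1 - β)) (3 - σ))) ^ 2 / 3 = _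
    rw [h0, h1, h2]; ring

theorem kp_tt (k : Fin 3) (β σ : ℝ) :
    tt (kp k β σ) = 4 * σ ^ 2 * (β * (1 - β) * (3 - σ)) := by
  rw [tt_ell]
  fin_cases k
  · obtain ⟨h0, h1, h2⟩ := fe_ell (3 - σ) (σ * β) (σ * (1 - β)) (by ring)
    show 4 * (ell 0 (fe (3 - σ) (σ * β) (σ * (1 - β))) *
      ell 1 (fe (3 - σ) (σ * β) (σ * (1 - β))) *
        ell 2 (fe (3 - σ) (σ * β) (σ * (1 - β)))) = _
    rw [h0, h1, h2]; ring
  · obtain ⟨h0, h1, h2⟩ := fe_ell (σ * (1 - β)) (3 - σ) (σ * β) (by ring)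
    show 4 * (ell 0 (fe (σ * (1 - β)) (3 - σ) (σ * β)) *
      ell 1 (fe (σ * (1 - β)) (3 - σ) (σ * β)) *
        ell 2 (fe (σ * (1 - β)) (3 - σ) (σ * β))) = _
    rw [h0, h1, h2]; ring
  · obtain ⟨h0, h1, h2⟩ := fe_ell (σ * β) (σ * (1 - β)) (3 - σ) (by ring)
    show 4 * (ell 0 (fe (σ * β) (σ * (1 - β)) (3 - σ)) *
      ell 1 (fe (σ * β) (σ * (1 - β)) (3 - σ)) *
        ell 2 (fe (σ * β) (σ * (1 - β)) (3 - σ))) = _
    rw [h0, h1, h2]; ring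

theorem kp_sqrt_tt (k : Fin 3) (β σ : ℝ) (h : 0 ≤ σ) :
    √(tt (kp k β σ)) = 2 * σ * √(β * (1 - β) * (3 - σ)) := by
  rw [kp_tt, show 4 * σ ^ 2 * (β * (1 - β) * (3 - σ)) = (2 * σ) ^ 2 * (β * (1 - β) * (3 - σ)) by
    ring, Real.sqrt_mul (sq_nonneg _), Real.sqrt_sq (by positivity)]

theorem kp_q (k : Fin 3) (β σ : ℝ) (h : 0 ≤ σ) : qo (kp k β σ) = qW 1 β σ ∧
    qq (kp k β σ) = qW (-1) β σ := by
  unfold qo qq qW
  rw [kp_sqrt_tt k β σ h, kp_nn]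
  constructor <;> ring

theorem far_bounds (β : ℝ) (h0 : 0 ≤ β) (h1 : β ≤ 1) : 3 / 2 ≤ far β ∧ far β ≤ 2 := by
  unfold far
  have hm1 : max β (1 - β) ≤ 1 := max_le h1 (by linarith)
  have hm2 : 1 / 2 ≤ max β (1 - β) := by
    rcases le_total (1 / 2) β with h | h
    · exact h.trans (le_max_left _ _)
    · exact le_trans (by linarith) (le_max_right _ _)
  constructor
  · rw [div_le_div_iff₀ (by norm_num) (by linarith)]; linarith
  · rw [div_le_iff₀ (by linarith)]; linarith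

theorem kite_param (k : Fin 3) (x : E3) (hx : x ∈ Prism) (hk : ∀ j, ell j x ≤ ell k x)
    (h3 : ell k x < 3) : ∃ β σ, 0 ≤ β ∧ β ≤ 1 ∧ 0 < σ ∧ σ ≤ far β ∧ kp k β σ 0 = x 0 ∧
      kp k β σ 1 = x 1 := by
  have hs : ell k x + ell (k + 1) x + ell (k + 2) x = 3 := by
    have := ell_sum x
    fin_cases k
    · show ell 0 x + ell 1 x + ell 2 x = 3
      exact this
    · show ell 1 x + ell 2 x + ell 0 x = 3
      linarith
    · show ell 2 x + ell 0 x + ell 1 x = 3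
      linarith
  have hp1 := hx (k + 1)
  have hp2 := hx (k + 2)
  have hσ : 0 < 3 - ell k x := by linarith
  have hβ0 : 0 ≤ ell (k + 1) x / (3 - ell k x) := by positivity
  have hβ1 : ell (k + 1) x / (3 - ell k x) ≤ 1 := by
    rw [div_le_one hσ]; linarith
  have e1 : (3 - ell k x) * (ell (k + 1) x / (3 - ell k x)) = ell (k + 1) x := by
    field_simp
  have e2 : (3 - ell k x) * (1 - ell (k + 1) x / (3 - ell k x)) = ell (k + 2) x := by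
    rw [mul_sub, e1]; linarith
  refine ⟨ell (k + 1) x / (3 - ell k x), 3 - ell k x, hβ0, hβ1, hσ, ?_, ?_⟩
  · unfold far
    set β := ell (k + 1) x / (3 - ell k x) with hβ
    have hm : 0 < 1 + max β (1 - β) := by
      have := le_max_left β (1 - β); linarith
    rw [le_div_iff₀ hm]
    rcases max_choice β (1 - β) with h | h
    · rw [h]
      have := hk (k + 1)
      nlinarith [e1]
    · rw [h]
      have := hk (k + 2)
      nlinarith [e2]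
  · obtain ⟨h0, h1, h2⟩ := kp_ell k (ell (k + 1) x / (3 - ell k x)) (3 - ell k x)
    rw [e1] at h1
    rw [e2] at h2
    apply ell_inj
    intro j
    have hj : j = k ∨ j = k + 1 ∨ j = k + 2 := by
      fin_cases k <;> fin_cases j <;> decide
    rcases hj with rfl | rfl | rfl
    · rw [h0]; ring
    · exact h1
    · exact h2

theorem kite : KiteStatement :=
  ⟨kp_ell, kp_nn, kp_tt, fun k β σ h => kp_q k β σ h, kite_param,
    fun β h0 h1 => far_bounds β h0 h1, ell_inj⟩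

end Pool.Agent.Tight.H88
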