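import Pool.Agent.Lib.MP_a31e1e_gt.H88.Arc

/-!
# CWCONT: continuity and image of the characteristic maps
-/

open Set Metric Filter Topology

namespace Pool.Agent.Tight.H88

theorem cont_nn : Continuous nn := by unfold nn; fun_prop
theorem cont_cc : Continuous cc := by unfold cc; fun_prop
theorem cont_tt : Continuous tt := by
  have := cont_nn; have := cont_cc
  unfold tt; fun_prop
theorem cont_qq : Continuous qq := by
  have := cont_nn; have := cont_tt
  unfold qq; fun_prop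
theorem cont_qo : Continuous qo := by
  have := cont_nn; have := cont_tt
  unfold qo; fun_prop
theorem cont_sheet (i : Fin 4) : Continuous (sheet i) := by
  have := cont_qq; have := cont_qo
  fin_cases i
  · show Continuous fun x => √(qo x)
    fun_prop
  · show Continuous fun x => -√(qo x)
    fun_prop
  · show Continuous fun x => √(qq x)
    fun_prop
  · show Continuous fun x => -√(qq x)
    fun_prop

section
variable {X : Type*} [TopologicalSpace X] {s : Set X}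

theorem cont_mk {f g h : X → ℝ} (hf : ContinuousOn f s)
    (hg : ContinuousOn g s) (hh : ContinuousOn h s) :
    ContinuousOn (fun x => (!₂[f x, g x, h x] : E3)) s := by
  apply (PiLp.continuous_toLp 2 _).comp_continuousOn
  rw [continuousOn_pi]
  intro i
  fin_cases i
  · exact hf
  · exact hg
  · exact hh

theorem cont_mk2 {f g : X → ℝ} (hf : ContinuousOn f s) (hg : ContinuousOn g s) :
    ContinuousOn (fun x => (!₂[f x, g x] : E2)) s := by
  apply (PiLp.continuous_toLp 2 _).comp_continuousOn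
  rw [continuousOn_pi]
  intro i
  fin_cases i
  · exact hf
  · exact hg

theorem cont_coord (i : Fin 3) : Continuous fun x : E3 => x i := by fun_prop

theorem cont_lift {f : X → E3} {w : X → ℝ} (hf : ContinuousOn f s) (hw : ContinuousOn w s) :
    ContinuousOn (fun x => lift (f x) (w x)) s := by
  unfold lift
  refine ContinuousOn.prodMk (cont_mk ?_ ?_ hw) continuousOn_const
  · exact (cont_coord 0).comp_continuousOn hf
  · exact (cont_coord 1).comp_continuousOn hf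

theorem cont_onSheet (i : Fin 4) {f : X → E3} (hf : ContinuousOn f s) :
    ContinuousOn (fun x => onSheet i (f x)) s :=
  cont_lift hf ((cont_sheet i).comp_continuousOn hf)

end

theorem cont_floorX (ρ l : ℝ) : Continuous (floorX ρ l) := by
  have hpl : Continuous fun b : E2 => pl (l * xiX b) (l * xiY b) := by
    rw [← continuousOn_univ]
    unfold pl xiX xiY
    exact cont_mk (by fun_prop) (by fun_prop) (by fun_prop)
  have hn : Continuous fun b : E2 => nn (pl (l * xiX b) (l * xiY b)) := cont_nn.comp hpl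
  have hc : Continuous fun b : E2 => cc (pl (l * xiX b) (l * xiY b)) := cont_cc.comp hpl
  have hq : Continuous fun b : E2 => qq (pl (l * xiX b) (l * xiY b)) := cont_qq.comp hpl
  have hch : Continuous fun b : E2 => chi ρ (nn (pl (l * xiX b) (l * xiY b))) := by
    unfold chi
    exact Real.smoothTransition.continuous.comp (by fun_prop)
  have hH : Continuous (floorH ρ l) := by
    unfold floorH hS
    fun_prop
  rw [← continuousOn_univ]
  unfold floorX
  refine cont_mk ?_ ?_ ?_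
  · unfold xiX; fun_prop
  · unfold xiY; fun_prop
  · exact hH.continuousOn

theorem cont_floorP (ρ l : ℝ) : Continuous (floorP ρ l) := by
  have hX := cont_floorX ρ l
  have hL : Continuous (lab ρ l) := by
    unfold lab
    have h1 : Continuous fun b => nn (floorX ρ l b) := cont_nn.comp hX
    fun_prop
  exact hX.prodMk hL

/-! ### the wedge cells -/

def ep (o : Bool) : ℝ := if o then 1 else -1

theorem ep_or (o : Bool) : ep o = 1 ∨ ep o = -1 := by cases o <;> simp [ep]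

noncomputable def ff (ρ : ℝ) (o : Bool) (β : ℝ) : ℝ := if o then far β else farC ρ β

noncomputable def SS (ρ : ℝ) (o : Bool) (β s : ℝ) : ℝ :=
  arc (ep o) β + max s 0 * (far β - arc (ep o) β) + max (-s) 0 * (ff ρ o β - arc (ep o) β)

noncomputable def HH (ρ : ℝ) (o : Bool) (β s : ℝ) : ℝ :=
  √(qW (ep o) β (arc (ep o) β + max s 0 * (far β - arc (ep o) β))) -
    √(qW (ep o) β (arc (ep o) β + max (-s) 0 * (ff ρ o β - arc (ep o) β)))

theorem wedge_eq (ρ : ℝ) (o : Bool) (k : Fin 3) (β s : ℝ) (h0 : 0 ≤ β) (h1 : β ≤ 1) :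
    wedge ρ o k β s = lift (kp k β (SS ρ o β s)) (HH ρ o β s) := by
  have hz := (arc_spec (ep_or o) h0 h1).2.2
  rcases lt_or_ge s 0 with hs | hs
  · have e1 : max s 0 = 0 := max_eq_right hs.le
    have e2 : max (-s) 0 = -s := max_eq_left (by linarith)
    have e3 : |s| = -s := abs_of_neg hs
    unfold SS HH
    rw [e1, e2]
    simp only [zero_mul, add_zero, hz, Real.sqrt_zero, zero_sub]
    unfold wedge
    simp only [hs, and_true, if_true, e3]
    cases o
    · simp [ep, ff]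
    · simp [ep, ff]
  · have e1 : max s 0 = s := max_eq_left hs
    have e2 : max (-s) 0 = 0 := max_eq_right (by linarith)
    have e3 : |s| = s := abs_of_nonneg hs
    unfold SS HH
    rw [e1, e2]
    simp only [zero_mul, add_zero, hz, Real.sqrt_zero, sub_zero]
    unfold wedge
    simp only [not_lt.2 hs, and_false, if_false, e3, one_mul]
    cases o
    · simp [ep]
    · simp [ep]

theorem cont_ff (ρ : ℝ) (o : Bool) : Continuous (ff ρ o) := by
  cases o
  · exact farC_cont ρ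
  · exact far_cont

theorem cont_SS (ρ : ℝ) (o : Bool) :
    ContinuousOn (fun p : ℝ × ℝ => SS ρ o p.1 p.2) (Icc 0 1 ×ˢ univ) := by
  have ha : ContinuousOn (fun p : ℝ × ℝ => arc (ep o) p.1) (Icc 0 1 ×ˢ univ) :=
    (arc_cont (ep_or o)).comp continuous_fst.continuousOn fun p hp => hp.1
  have hf : ContinuousOn (fun p : ℝ × ℝ => far p.1) (Icc 0 1 ×ˢ univ) :=
    (far_cont.comp continuous_fst).continuousOn
  have hg : ContinuousOn (fun p : ℝ × ℝ => ff ρ o p.1) (Icc 0 1 ×ˢ univ) :=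
    ((cont_ff ρ o).comp continuous_fst).continuousOn
  unfold SS
  fun_prop

theorem cont_HH (ρ : ℝ) (o : Bool) :
    ContinuousOn (fun p : ℝ × ℝ => HH ρ o p.1 p.2) (Icc 0 1 ×ˢ univ) := by
  have ha : ContinuousOn (fun p : ℝ × ℝ => arc (ep o) p.1) (Icc 0 1 ×ˢ univ) :=
    (arc_cont (ep_or o)).comp continuous_fst.continuousOn fun p hp => hp.1
  have hf : ContinuousOn (fun p : ℝ × ℝ => far p.1) (Icc 0 1 ×ˢ univ) :=
    (far_cont.comp continuous_fst).continuousOn
  have hg : ContinuousOn (fun p : ℝ × ℝ => ff ρ o p.1) (Icc 0 1 ×ˢ univ) :=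
    ((cont_ff ρ o).comp continuous_fst).continuousOn
  have h1 : ContinuousOn (fun p : ℝ × ℝ => (p.1, arc (ep o) p.1 +
      max p.2 0 * (far p.1 - arc (ep o) p.1))) (Icc 0 1 ×ˢ univ) := by fun_prop
  have h2 : ContinuousOn (fun p : ℝ × ℝ => (p.1, arc (ep o) p.1 +
      max (-p.2) 0 * (ff ρ o p.1 - arc (ep o) p.1))) (Icc 0 1 ×ˢ univ) := by fun_prop
  have h3 := (qW_continuous (ep o)).comp_continuousOn h1
  have h4 := (qW_continuous (ep o)).comp_continuousOn h2
  exact h3.sqrt.sub h4.sqrt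

theorem cont_kp (k : Fin 3) : Continuous fun p : ℝ × ℝ => kp k p.1 p.2 := by
  rw [← continuousOn_univ]
  fin_cases k
  · show ContinuousOn (fun p : ℝ × ℝ => fe (3 - p.2) (p.2 * p.1) (p.2 * (1 - p.1))) univ
    unfold fe pl
    exact cont_mk (by fun_prop) (by fun_prop) (by fun_prop)
  · show ContinuousOn (fun p : ℝ × ℝ => fe (p.2 * (1 - p.1)) (3 - p.2) (p.2 * p.1)) univ
    unfold fe pl
    exact cont_mk (by fun_prop) (by fun_prop) (by fun_prop)
  · show ContinuousOn (fun p : ℝ × ℝ => fe (p.2 * p.1) (p.2 * (1 - p.1)) (3 - p.2)) univ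
    unfold fe pl
    exact cont_mk (by fun_prop) (by fun_prop) (by fun_prop)

theorem cont_wedge (ρ : ℝ) (o : Bool) (k : Fin 3) :
    ContinuousOn (fun p : ℝ × ℝ => wedge ρ o k p.1 p.2) (Icc 0 1 ×ˢ univ) := by
  have h1 : ContinuousOn (fun p : ℝ × ℝ => (p.1, SS ρ o p.1 p.2)) (Icc 0 1 ×ˢ univ) :=
    continuous_fst.continuousOn.prodMk (cont_SS ρ o)
  have h2 := (cont_kp k).comp_continuousOn h1
  refine (cont_lift h2 (cont_HH ρ o)).congr ?_
  rintro ⟨β, s⟩ ⟨hβ, -⟩
  exact wedge_eq ρ o k β s hβ.1 hβ.2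

/-! ### membership -/

theorem FS_lift (x : E3) (w : ℝ) (ht : 0 ≤ tt x) (hw : w ^ 2 = qo x ∨ w ^ 2 = qq x) :
    FS (lift x w).1 = 0 := by
  have hs := Real.sq_sqrt ht
  have e1 : nn (lift x w).1 = nn x := rfl
  have e2 : tt (lift x w).1 = tt x := rfl
  have e3 : mm (lift x w).1 = w ^ 2 + 3 * nn x - 9 := rfl
  unfold FS
  rw [e2, e3]
  rcases hw with hw | hw
  · rw [hw]; unfold qo; nlinarith
  · rw [hw]; unfold qq; nlinarith

theorem lift_mem {ρ l : ℝ} {x : E3} {w : ℝ} (ht : 0 ≤ tt x) (hw : w ^ 2 = qo x ∨ w ^ 2 = qq x)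
    (hn : nn x < 4) (h : 4 * ρ ^ 2 ≤ nn x ∨ 1 / 8 ≤ |w + 1|) : lift x w ∈ Surf ρ l :=
  Or.inr ⟨⟨FS_lift x w ht hw, hn, h⟩, rfl⟩

theorem abs_of_nonneg' {w : ℝ} (h : 0 ≤ w) : 1 / 8 ≤ |w + 1| := by
  rw [abs_of_pos (by linarith)]; linarith

theorem cc_sq (x : E3) : cc x ^ 2 ≤ nn x ^ 3 := by
  unfold cc nn
  nlinarith [sq_nonneg (x 0 * (x 0 ^ 2 - 3 * x 1 ^ 2))]

theorem cc_le {x : E3} (h : nn x ≤ 1 / 100) : |cc x| ≤ 1 / 1000 := by
  have h1 := cc_sq x
  have h0 : 0 ≤ nn x := by unfold nn; positivity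
  have h2 : nn x ^ 3 ≤ (1 / 100) ^ 3 := pow_le_pow_left₀ h0 h 3
  apply abs_le_of_sq_le_sq _ (by norm_num)
  linarith [show ((1 : ℝ) / 100) ^ 3 = (1 / 1000) ^ 2 by norm_num]

theorem tt_ge {x : E3} (h : nn x ≤ 1 / 100) : 39 / 10 ≤ tt x ∧ tt x ≤ 401 / 100 := by
  have h1 := abs_le.1 (cc_le h)
  have h0 : 0 ≤ nn x := by unfold nn; positivity
  unfold tt
  constructor <;> linarith

theorem qo_ge {x : E3} (h : nn x ≤ 1 / 100) : 8 ≤ qo x := by
  have h1 := (tt_ge h).1
  have h2 : 1 ≤ √(tt x) := by rw [Real.one_le_sqrt]; linarith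
  unfold qo
  linarith

theorem qq_ge {x : E3} (h : nn x ≤ 1 / 100) : 0 ≤ qq x := by
  have h1 := (tt_ge h).2
  have h2 : √(tt x) ≤ 201 / 100 := by
    rw [Real.sqrt_le_left (by norm_num)]; linarith
  unfold qq
  linarith

theorem neg_sqrt_qo {x : E3} (ρ : ℝ) (hρ : ρ ≤ 1 / 100) (hρ0 : 0 < ρ) :
    4 * ρ ^ 2 ≤ nn x ∨ 1 / 8 ≤ |-√(qo x) + 1| := by
  rcases le_total (4 * ρ ^ 2) (nn x) with h | h
  · exact Or.inl h
  · right
    have h1 : nn x ≤ 1 / 100 := by nlinarith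
    have h2 := qo_ge h1
    have h3 : 2 ≤ √(qo x) := Real.le_sqrt_of_sq_le (by linarith)
    rw [abs_of_nonpos (by linarith)]
    linarith

/-- membership for the wedge cells -/
theorem wedge_mem {ρ l : ℝ} (hp : Par ρ l) (o : Bool) (k : Fin 3) (β s : ℝ) (h0 : 0 ≤ β)
    (h1 : β ≤ 1) (hs0 : -1 ≤ s) (hs1 : s ≤ 1) : wedge ρ o k β s ∈ Surf ρ l := by
  obtain ⟨ha0, ha1, hz⟩ := arc_spec (ep_or o) h0 h1
  obtain ⟨-, -, hA⟩ := arcs
  obtain ⟨-, -, hfC, -, hA⟩ := hA ρ hp.hρ hp.hρ'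
  obtain ⟨hfc1, hfc2⟩ := hfC β h0 h1
  obtain ⟨hf1, hf2⟩ := far_bounds β h0 h1
  set a := arc (ep o) β with hadef
  -- the point
  set f : ℝ := if o = false ∧ s < 0 then farC ρ β else far β with hf
  have hff : 3 / 2 ≤ f ∧ f ≤ far β := by
    rw [hf]; split_ifs
    · exact ⟨hfc1, hfc2⟩
    · exact ⟨hf1, le_rfl⟩
  have hsa : |s| ≤ 1 := abs_le.2 ⟨hs0, hs1⟩
  set σ := a + |s| * (f - a) with hσ
  have hσ0 : a ≤ σ := by
    rw [hσ]
    have : 0 ≤ |s| * (f - a) := mul_nonneg (abs_nonneg _) (by linarith)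
    linarith
  have hσ1 : σ ≤ f := by
    have : |s| * (f - a) ≤ 1 * (f - a) := mul_le_mul_of_nonneg_right hsa (by linarith)
    linarith
  have hσf : σ ≤ far β := hσ1.trans hff.2
  have hσ2 : σ ≤ 2 := hσf.trans hf2
  have hσp : 0 < σ := by linarith
  have hW : 0 ≤ qW (ep o) β σ := by
    rcases eq_or_lt_of_le hσ0 with h | h
    · rw [← h, hz]
    · exact (arc_pos (ep_or o) h0 h1 hσ2 h).le
  have hwe : wedge ρ o k β s = lift (kp k β σ) ((if s < 0 then -1 else 1) *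
      √(qW (ep o) β σ)) := rfl
  have htt : 0 ≤ tt (kp k β σ) := by
    rw [kp_tt]
    have : 0 ≤ β * (1 - β) * (3 - σ) :=
      mul_nonneg (mul_nonneg h0 (by linarith)) (by linarith)
    positivity
  have hq := kp_q k β σ hσp.le
  have hsq : ((if s < 0 then (-1 : ℝ) else 1) * √(qW (ep o) β σ)) ^ 2 = qW (ep o) β σ := by
    rw [mul_pow, Real.sq_sqrt hW]
    split_ifs <;> norm_num
  have hw : ((if s < 0 then (-1 : ℝ) else 1) * √(qW (ep o) β σ)) ^ 2 = qo (kp k β σ) ∨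
      ((if s < 0 then (-1 : ℝ) else 1) * √(qW (ep o) β σ)) ^ 2 = qq (kp k β σ) := by
    rw [hsq]
    cases o
    · right; rw [hq.2]; simp [ep]
    · left; rw [hq.1]; simp [ep]
  have hn : nn (kp k β σ) < 4 := by
    rw [kp_nn]
    have hK := K_pos β
    have h2 := hσf.trans (far_le β h0 h1)
    rw [le_div_iff₀ (by positivity)] at h2
    nlinarith
  rw [hwe]
  apply lift_mem htt hw hn
  rcases lt_or_ge s 0 with hs | hs
  · rw [if_pos hs]
    cases o
    · left
      have hfe : f = farC ρ β := by rw [hf]; simp [hs]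
      obtain ⟨c1, -, -, c4⟩ := hA k β σ h0 h1 hσp.le hσf
      rcases eq_or_lt_of_le (hfe ▸ hσ1 : σ ≤ farC ρ β) with h | h
      · exact c4 h
      · exact (c1 h).le
    · have h3 := neg_sqrt_qo (x := kp k β σ) ρ hp.hρ' hp.hρ
      rw [hq.1] at h3
      simpa [ep] using h3
  · rw [if_neg (not_lt.2 hs), one_mul]
    exact Or.inr (abs_of_nonneg' (Real.sqrt_nonneg _))

theorem ev_nn (j : Fin 3) : nn (ev j) = 1 := by
  fin_cases j
  · show (0 : ℝ) ^ 2 + 1 ^ 2 = 1
    norm_num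
  · show (-√3 / 2 : ℝ) ^ 2 + (-1 / 2) ^ 2 = 1
    linear_combination (1 / 4) * sq3
  · show (√3 / 2 : ℝ) ^ 2 + (-1 / 2) ^ 2 = 1
    linear_combination (1 / 4) * sq3

theorem ev_cc (j : Fin 3) : cc (ev j) = 1 := by
  fin_cases j
  · show (1 : ℝ) ^ 3 - 3 * 0 ^ 2 * 1 = 1
    norm_num
  · show (-1 / 2 : ℝ) ^ 3 - 3 * (-√3 / 2) ^ 2 * (-1 / 2) = 1
    linear_combination (3 / 8) * sq3
  · show (-1 / 2 : ℝ) ^ 3 - 3 * (√3 / 2) ^ 2 * (-1 / 2) = 1
    linear_combination (3 / 8) * sq3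

theorem nn_smul (c : ℝ) (x : E3) : nn (c • x) = c ^ 2 * nn x := by
  unfold nn
  simp
  ring

theorem cc_smul (c : ℝ) (x : E3) : cc (c • x) = c ^ 3 * cc x := by
  unfold cc
  simp
  ring

theorem ray_tt (c : ℝ) (j : Fin 3) : tt (c • ev j) = (1 - c) * (2 + c) ^ 2 := by
  unfold tt
  rw [nn_smul, cc_smul, ev_nn, ev_cc]
  ring

/-- the inner sheet over the segments -/
theorem ray_qq {c : ℝ} (j : Fin 3) (h0 : 0 ≤ c) (h1 : c ≤ 1) : 0 ≤ qq (c • ev j) := by
  unfold qq
  rw [ray_tt, nn_smul, ev_nn]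
  have h2 : √((1 - c) * (2 + c) ^ 2) ≤ (9 - 3 * c ^ 2) / 4 := by
    rw [Real.sqrt_le_left (by nlinarith)]
    nlinarith [sq_nonneg (c * (1 - c)), sq_nonneg c, mul_nonneg h0 (sub_nonneg.2 h1),
      pow_nonneg h0 3, pow_nonneg h0 4]
  linarith

theorem ray_qo_nonneg {c : ℝ} (j : Fin 3) (h0 : 0 ≤ c) (h1 : c ≤ 1) : 0 ≤ qo (c • ev j) := by
  have h := ray_qq j h0 h1
  have h2 := Real.sqrt_nonneg (tt (c • ev j))
  unfold qq at h
  unfold qo
  linarith

theorem sheet_mem {ρ l : ℝ} (hp : Par ρ l) (i : Fin 3) (j : Fin 3) {c : ℝ} (h0 : 0 ≤ c)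
    (h1 : c ≤ 1) : onSheet i.castSucc (c • ev j) ∈ Surf ρ l := by
  have ht : 0 ≤ tt (c • ev j) := by
    rw [ray_tt]
    exact mul_nonneg (by linarith) (by positivity)
  have hn : nn (c • ev j) < 4 := by
    rw [nn_smul, ev_nn]; nlinarith
  have hqq := ray_qq j h0 h1
  have hqo := ray_qo_nonneg j h0 h1
  fin_cases i
  · show lift (c • ev j) (√(qo (c • ev j))) ∈ Surf ρ l
    exact lift_mem ht (Or.inl (Real.sq_sqrt hqo)) hn (Or.inr (abs_of_nonneg' (Real.sqrt_nonneg _)))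
  · show lift (c • ev j) (-√(qo (c • ev j))) ∈ Surf ρ l
    exact lift_mem ht (Or.inl (by rw [neg_sq, Real.sq_sqrt hqo])) hn
      (neg_sqrt_qo ρ hp.hρ' hp.hρ)
  · show lift (c • ev j) (√(qq (c • ev j))) ∈ Surf ρ l
    exact lift_mem ht (Or.inr (Real.sq_sqrt hqq)) hn (Or.inr (abs_of_nonneg' (Real.sqrt_nonneg _)))

theorem circ_mem {ρ l : ℝ} (hp : Par ρ l) (θ : ℝ) : circ ρ θ ∈ Surf ρ l := by
  have hn : nn (pl (2 * ρ * Real.cos θ) (2 * ρ * Real.sin θ)) = 4 * ρ ^ 2 := by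
    show (2 * ρ * Real.cos θ) ^ 2 + (2 * ρ * Real.sin θ) ^ 2 = 4 * ρ ^ 2
    have := Real.sin_sq_add_cos_sq θ
    linear_combination (4 * ρ ^ 2) * this
  have hρ := hp.hρ
  have hρ' := hp.hρ'
  have h1 : nn (pl (2 * ρ * Real.cos θ) (2 * ρ * Real.sin θ)) ≤ 1 / 100 := by
    rw [hn]; nlinarith
  show lift (pl (2 * ρ * Real.cos θ) (2 * ρ * Real.sin θ))
    (-√(qq (pl (2 * ρ * Real.cos θ) (2 * ρ * Real.sin θ)))) ∈ Surf ρ l
  apply lift_mem (by linarith [(tt_ge h1).1])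
    (Or.inr (by rw [neg_sq, Real.sq_sqrt (qq_ge h1)])) (by linarith) (Or.inl hn.ge)

theorem cont_circ (ρ : ℝ) : Continuous (circ ρ) := by
  rw [← continuousOn_univ]
  unfold circ
  apply cont_onSheet
  unfold pl
  exact cont_mk (by fun_prop) (by fun_prop) (by fun_prop)

theorem abs_le_of_mem {n : ℕ} {y : Fin n → ℝ} (hy : y ∈ closedBall (0 : Fin n → ℝ) 1) (i : Fin n) :
    -1 ≤ y i ∧ y i ≤ 1 := by
  rw [mem_closedBall_zero_iff] at hy
  exact abs_le.1 ((norm_le_pi_norm y i).trans hy)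

theorem floor_nn (ρ l u t : ℝ) : nn (floorX ρ l !₂[u, t]) =
    l ^ 2 * (t ^ 2 + 2 * t * Real.cos (3 * u) + 1) := by
  show (l * (Real.cos (2 * u) + t * Real.cos u)) ^ 2 + (l * (Real.sin (2 * u) - t * Real.sin u)) ^ 2
    = _
  have h1 := Real.sin_sq_add_cos_sq (2 * u)
  have h2 := Real.sin_sq_add_cos_sq u
  have h3 : Real.cos (3 * u) = Real.cos (2 * u) * Real.cos u - Real.sin (2 * u) * Real.sin u := by
    rw [← Real.cos_add]; ring_nf
  rw [h3]
  linear_combination l ^ 2 * h1 + l ^ 2 * t ^ 2 * h2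

theorem floorP_mem {ρ l : ℝ} {b : E2} (h : nn (floorX ρ l b) ≤ 4 * ρ ^ 2) :
    floorP ρ l b ∈ Surf ρ l := Or.inl ⟨b, h, rfl⟩

theorem gamma_mem {ρ l : ℝ} (hp : Par ρ l) {c : ℝ} (h0 : -1 ≤ c) (h1 : c ≤ 1) :
    floorP ρ l !₂[0, -1 + c * (2 * ρ / l)] ∈ Surf ρ l := by
  apply floorP_mem
  rw [floor_nn]
  have hl := hp.hl.ne'
  have : l ^ 2 * ((-1 + c * (2 * ρ / l)) ^ 2 + 2 * (-1 + c * (2 * ρ / l)) * Real.cos (3 * 0) + 1)
      = 4 * ρ ^ 2 * c ^ 2 := by
    rw [mul_zero, Real.cos_zero]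
    field_simp
    ring
  rw [this]
  have : c ^ 2 ≤ 1 := by nlinarith
  nlinarith [sq_nonneg ρ]

theorem core_mem {ρ l : ℝ} (hp : Par ρ l) (u : ℝ) {c : ℝ} (h0 : -1 ≤ c) (h1 : c ≤ 1) :
    floorP ρ l !₂[u, -Real.cos (3 * u) + c * √((2 * ρ / l) ^ 2 - Real.sin (3 * u) ^ 2)]
      ∈ Surf ρ l := by
  apply floorP_mem
  rw [floor_nn]
  have hl := hp.hl
  have hl' := hp.hl'
  have hs := Real.sin_sq_add_cos_sq (3 * u)
  have hbig : 1 ≤ (2 * ρ / l) ^ 2 := by
    have : 1 ≤ 2 * ρ / l := by rw [le_div_iff₀ hl]; linarith [hp.hρ]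
    nlinarith
  have hD : 0 ≤ (2 * ρ / l) ^ 2 - Real.sin (3 * u) ^ 2 := by nlinarith [sq_nonneg (Real.cos (3 * u))]
  have hsq := Real.sq_sqrt hD
  set r := √((2 * ρ / l) ^ 2 - Real.sin (3 * u) ^ 2) with hr
  have e : (-Real.cos (3 * u) + c * r) ^ 2 + 2 * (-Real.cos (3 * u) + c * r) * Real.cos (3 * u) + 1
      = c ^ 2 * r ^ 2 + Real.sin (3 * u) ^ 2 := by linear_combination - hs
  rw [e, hsq]
  have hc : c ^ 2 ≤ 1 := by nlinarith
  have h2 : c ^ 2 * ((2 * ρ / l) ^ 2 - Real.sin (3 * u) ^ 2) ≤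
      1 * ((2 * ρ / l) ^ 2 - Real.sin (3 * u) ^ 2) := mul_le_mul_of_nonneg_right hc hD
  have h3 : l ^ 2 * (2 * ρ / l) ^ 2 = 4 * ρ ^ 2 := by field_simp; ring
  have h4 : l ^ 2 * (c ^ 2 * ((2 * ρ / l) ^ 2 - Real.sin (3 * u) ^ 2) + Real.sin (3 * u) ^ 2) ≤
      l ^ 2 * (2 * ρ / l) ^ 2 := by
    apply mul_le_mul_of_nonneg_left _ (sq_nonneg l)
    linarith
  linarith

theorem cwCont : CWContStatement := by
  intro ρ l hp n i
  have hρ := hp.hρ
  have hρ' := hp.hρ'
  match n, i with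
  | 0, Sum.inl i =>
    refine ⟨continuousOn_const, fun y _ => ?_⟩
    show onSheet i.castSucc (pl 0 0) ∈ Surf ρ l
    have h := sheet_mem hp i 0 le_rfl zero_le_one
    have e : ((0 : ℝ) • ev 0) = pl 0 0 := by
      ext k; fin_cases k <;> simp [pl, ev]
    rwa [e] at h
  | 0, Sum.inr (Sum.inl (j, b)) =>
    refine ⟨continuousOn_const, fun y _ => ?_⟩
    show onSheet (if b then 0 else 1) (ev j) ∈ Surf ρ l
    have h := sheet_mem (ρ := ρ) (l := l) hp (if b then 0 else 1) j zero_le_one le_rfl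
    rw [one_smul] at h
    cases b
    · exact h
    · exact h
  | 0, Sum.inr (Sum.inr i) =>
    exact ⟨continuousOn_const, fun y _ => circ_mem hp _⟩
  | 1, Sum.inl (k, d) =>
    have hd : (0 : ℝ) ≤ (if d then 1 else 0) ∧ (if d then (1 : ℝ) else 0) ≤ 1 := by
      cases d <;> simp
    constructor
    · have h1 : ContinuousOn (fun y : Fin 1 → ℝ => ((if d then (1 : ℝ) else 0), y 0))
          (closedBall 0 1) := by fun_prop
      have h2 := (cont_wedge ρ true k).comp h1 fun y _ => ⟨⟨hd.1, hd.2⟩, mem_univ _⟩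
      show ContinuousOn (fun y : Fin 1 → ℝ => wedge ρ true k (if d then 1 else 0) (y 0))
        (closedBall 0 1)
      exact h2
    · intro y hy
      have := abs_le_of_mem hy 0
      exact wedge_mem hp true k _ _ hd.1 hd.2 this.1 this.2
  | 1, Sum.inr (Sum.inl (i, j)) =>
    constructor
    · show ContinuousOn (fun y : Fin 1 → ℝ => onSheet i.castSucc (((1 + y 0) / 2) • ev j)) _
      exact cont_onSheet _ (by fun_prop)
    · intro y hy
      have := abs_le_of_mem hy 0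
      exact sheet_mem hp i j (by linarith) (by linarith)
  | 1, Sum.inr (Sum.inr (Sum.inl j)) =>
    constructor
    · show ContinuousOn (fun y : Fin 1 → ℝ =>
        onSheet 3 ((2 * ρ + (1 - 2 * ρ) * ((1 + y 0) / 2)) • ev j)) _
      exact cont_onSheet _ (by fun_prop)
    · intro y hy
      have hy' := abs_le_of_mem hy 0
      set c := 2 * ρ + (1 - 2 * ρ) * ((1 + y 0) / 2) with hc
      have hc0 : 2 * ρ ≤ c := by
        have : 0 ≤ (1 - 2 * ρ) * ((1 + y 0) / 2) := mul_nonneg (by linarith) (by linarith)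
        linarith
      have hc1 : c ≤ 1 := by
        have : (1 - 2 * ρ) * ((1 + y 0) / 2) ≤ (1 - 2 * ρ) * 1 :=
          mul_le_mul_of_nonneg_left (by linarith) (by linarith)
        linarith
      show lift (c • ev j) (-√(qq (c • ev j))) ∈ Surf ρ l
      apply lift_mem
      · rw [ray_tt]; exact mul_nonneg (by linarith) (by positivity)
      · right; rw [neg_sq, Real.sq_sqrt (ray_qq j (by linarith) hc1)]
      · rw [nn_smul, ev_nn]; nlinarith
      · left; rw [nn_smul, ev_nn]; nlinarith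
  | 1, Sum.inr (Sum.inr (Sum.inr (Sum.inl i))) =>
    constructor
    · show ContinuousOn (fun y : Fin 1 → ℝ =>
        circ ρ (ang i.castSucc + (ang i.succ - ang i.castSucc) * ((1 + y 0) / 2))) _
      exact (cont_circ ρ).comp_continuousOn (by fun_prop)
    · intro y _
      exact circ_mem hp _
  | 1, Sum.inr (Sum.inr (Sum.inr (Sum.inr ()))) =>
    constructor
    · show ContinuousOn (fun y : Fin 1 → ℝ => floorP ρ l !₂[0, -1 + y 0 * (2 * ρ / l)]) _
      exact (cont_floorP ρ l).comp_continuousOn (cont_mk2 (by fun_prop) (by fun_prop))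
    · intro y hy
      have := abs_le_of_mem hy 0
      exact gamma_mem hp this.1 this.2
  | 2, Sum.inl (o, k) =>
    constructor
    · have h1 : ContinuousOn (fun y : Fin 2 → ℝ => ((1 + y 0) / 2, y 1))
          (closedBall 0 1) := by fun_prop
      have h2 := (cont_wedge ρ o k).comp (t := Icc 0 1 ×ˢ univ) h1 fun y hy => by
        have := abs_le_of_mem hy 0
        exact ⟨⟨by show 0 ≤ (1 + y 0) / 2; linarith, by show (1 + y 0) / 2 ≤ 1; linarith⟩,
          mem_univ _⟩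
      show ContinuousOn (fun y : Fin 2 → ℝ => wedge ρ o k ((1 + y 0) / 2) (y 1))
        (closedBall 0 1)
      exact h2
    · intro y hy
      have h0 := abs_le_of_mem hy 0
      have h1 := abs_le_of_mem hy 1
      exact wedge_mem hp o k _ _ (by linarith) (by linarith) h1.1 h1.2
  | 2, Sum.inr () =>
    constructor
    · show ContinuousOn (fun y : Fin 2 → ℝ => coreCell ρ l (y 0) (y 1)) _
      unfold coreCell
      exact (cont_floorP ρ l).comp_continuousOn (cont_mk2 (by fun_prop) (by fun_prop))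
    · intro y hy
      have h1 := abs_le_of_mem hy 1
      exact core_mem hp _ h1.1 h1.2
  | n + 3, e => exact (e : Empty).elim

end Pool.Agent.Tight.H88
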