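import Pool.Agent.Lib.MP_a31e1e_gt.H88.CwCont

/-!
# CWINJ: injectivity on the open cells
-/

open Set Metric Filter Topology

namespace Pool.Agent.Tight.H88

theorem lift_inj {x x' : E3} {w w' : ℝ} (h : lift x w = lift x' w') :
    x 0 = x' 0 ∧ x 1 = x' 1 ∧ w = w' := by
  have h1 : (lift x w).1 = (lift x' w').1 := by rw [h]
  have e0 : (lift x w).1 0 = (lift x' w').1 0 := by rw [h1]
  have e1 : (lift x w).1 1 = (lift x' w').1 1 := by rw [h1]
  have e2 : (lift x w).1 2 = (lift x' w').1 2 := by rw [h1]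
  exact ⟨e0, e1, e2⟩

theorem ell_of_coord {x x' : E3} (h0 : x 0 = x' 0) (h1 : x 1 = x' 1) (j : Fin 3) :
    ell j x = ell j x' := by
  fin_cases j
  · show 1 - x 1 = 1 - x' 1
    rw [h1]
  · show 1 + (x 1 + √3 * x 0) / 2 = 1 + (x' 1 + √3 * x' 0) / 2
    rw [h1, h0]
  · show 1 + (x 1 - √3 * x 0) / 2 = 1 + (x' 1 - √3 * x' 0) / 2
    rw [h1, h0]

theorem kp_inj {k : Fin 3} {β σ β' σ' : ℝ} (hσ : 0 < σ) (h0 : kp k β σ 0 = kp k β' σ' 0)
    (h1 : kp k β σ 1 = kp k β' σ' 1) : β = β' ∧ σ = σ' := by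
  have e := fun j => ell_of_coord h0 h1 j
  have e0 := e k
  have e1 := e (k + 1)
  rw [(kp_ell k β σ).1, (kp_ell k β' σ').1] at e0
  rw [(kp_ell k β σ).2.1, (kp_ell k β' σ').2.1] at e1
  have hs : σ = σ' := by linarith
  rw [← hs] at e1
  exact ⟨mul_left_cancel₀ hσ.ne' e1, hs⟩

/-- the wedge cells are injective for `β` in `[0,1]` -/
theorem wedge_inj {ρ : ℝ} (hρ : 0 < ρ) (hρ' : ρ ≤ 1 / 100) (o : Bool) (k : Fin 3)
    {β s β' s' : ℝ} (h0 : 0 ≤ β)
    (h1 : β ≤ 1) (hs0 : -1 ≤ s) (hs1 : s ≤ 1) (hs0' : -1 ≤ s') (hs1' : s' ≤ 1)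
    (h0' : 0 ≤ β') (h1' : β' ≤ 1)
    (h : wedge ρ o k β s = wedge ρ o k β' s') : β = β' ∧ s = s' := by
  obtain ⟨ha0, ha1, hz⟩ := arc_spec (ep_or o) h0 h1
  obtain ⟨-, -, hA⟩ := arcs
  obtain ⟨-, -, hfC, -, hA⟩ := hA ρ hρ hρ'
  obtain ⟨hfc1, hfc2⟩ := hfC β h0 h1
  obtain ⟨hf1, hf2⟩ := far_bounds β h0 h1
  have hwe : ∀ β s, wedge ρ o k β s = lift (kp k β (arc (ep o) β + |s| *
      ((if o = false ∧ s < 0 then farC ρ β else far β) - arc (ep o) β)))
      ((if s < 0 then -1 else 1) * √(qW (ep o) β (arc (ep o) β + |s| *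
      ((if o = false ∧ s < 0 then farC ρ β else far β) - arc (ep o) β)))) := fun _ _ => rfl
  rw [hwe, hwe] at h
  obtain ⟨hx, hy, hw⟩ := lift_inj h
  have hff : ∀ s : ℝ, 3 / 2 ≤ (if o = false ∧ s < 0 then farC ρ β else far β) ∧
      (if o = false ∧ s < 0 then farC ρ β else far β) ≤ far β := by
    intro s
    split_ifs
    · exact ⟨hfc1, hfc2⟩
    · exact ⟨hf1, le_rfl⟩
  have hσp : 0 < arc (ep o) β + |s| *
      ((if o = false ∧ s < 0 then farC ρ β else far β) - arc (ep o) β) := by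
    have : 0 ≤ |s| * ((if o = false ∧ s < 0 then farC ρ β else far β) - arc (ep o) β) :=
      mul_nonneg (abs_nonneg _) (by linarith [(hff s).1])
    linarith
  obtain ⟨hβ, hσ⟩ := kp_inj hσp hx hy
  refine ⟨hβ, ?_⟩
  subst hβ
  set a := arc (ep o) β with ha
  rw [← hσ] at hw
  have hsa : |s| ≤ 1 := abs_le.2 ⟨hs0, hs1⟩
  set σ := a + |s| * ((if o = false ∧ s < 0 then farC ρ β else far β) - a) with hσd
  have hσ2 : σ ≤ 2 := by
    have : |s| * ((if o = false ∧ s < 0 then farC ρ β else far β) - a) ≤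
        1 * ((if o = false ∧ s < 0 then farC ρ β else far β) - a) :=
      mul_le_mul_of_nonneg_right hsa (by linarith [(hff s).1])
    linarith [(hff s).2]
  rcases lt_or_ge a σ with hlt | hge
  · -- positive height
    have hpos := Real.sqrt_pos.2 (arc_pos (ep_or o) h0 h1 hσ2 hlt)
    have hsign : s < 0 ↔ s' < 0 := by
      constructor
      · intro hs
        by_contra hs'
        rw [if_pos hs, if_neg hs'] at hw
        linarith
      · intro hs'
        by_contra hs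
        rw [if_pos hs', if_neg hs] at hw
        linarith
    have hfe : (if o = false ∧ s < 0 then farC ρ β else far β) =
        (if o = false ∧ s' < 0 then farC ρ β else far β) := by
      by_cases hs : s < 0
      · have := hsign.1 hs
        simp [hs, this]
      · have : ¬ s' < 0 := fun h => hs (hsign.2 h)
        simp [hs, this]
    have habs : |s| = |s'| := by
      rw [hσd, ← hfe] at hσ
      have h3 : |s| * ((if o = false ∧ s < 0 then farC ρ β else far β) - a) =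
          |s'| * ((if o = false ∧ s < 0 then farC ρ β else far β) - a) := by linarith
      exact mul_right_cancel₀ (by linarith [(hff s).1]) h3
    by_cases hs : s < 0
    · have hs' := hsign.1 hs
      rw [abs_of_neg hs, abs_of_neg hs'] at habs
      linarith
    · have hs' : ¬ s' < 0 := fun h => hs (hsign.2 h)
      rw [abs_of_nonneg (not_lt.1 hs), abs_of_nonneg (not_lt.1 hs')] at habs
      exact habs
  · -- `s = 0`
    have key : ∀ s : ℝ, a + |s| * ((if o = false ∧ s < 0 then farC ρ β else far β) - a) ≤ a →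
        s = 0 := by
      intro s hs
      by_contra hne
      have : 0 < |s| * ((if o = false ∧ s < 0 then farC ρ β else far β) - a) :=
        mul_pos (abs_pos.2 hne) (by linarith [(hff s).1])
      linarith
    rw [key s hge, key s' (by rw [← hσ]; exact hge)]

theorem onSheet_ray_inj {i : Fin 4} {j : Fin 3} {c c' : ℝ}
    (h : onSheet i (c • ev j) = onSheet i (c' • ev j)) : c = c' := by
  obtain ⟨-, h1, -⟩ := lift_inj h
  have h1' : c * ev j 1 = c' * ev j 1 := h1
  refine mul_right_cancel₀ ?_ h1'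
  fin_cases j
  · show (1 : ℝ) ≠ 0
    norm_num
  · show (-1 / 2 : ℝ) ≠ 0
    norm_num
  · show (-1 / 2 : ℝ) ≠ 0
    norm_num

theorem circ_inj {ρ θ θ' : ℝ} (hρ : 0 < ρ) (h : circ ρ θ = circ ρ θ')
    (hlt : |θ - θ'| < 2 * Real.pi) : θ = θ' := by
  obtain ⟨h0, h1, -⟩ := lift_inj h
  have hc : Real.cos θ = Real.cos θ' := mul_left_cancel₀ (by positivity) h0
  have hs : Real.sin θ = Real.sin θ' := mul_left_cancel₀ (by positivity) h1
  have h2 : Real.cos (θ - θ') = 1 := by
    rw [Real.cos_sub, hc, hs]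
    have := Real.sin_sq_add_cos_sq θ'
    nlinarith
  rw [Real.cos_eq_one_iff_of_lt_of_lt (by linarith [(abs_lt.1 hlt).1])
    (by linarith [(abs_lt.1 hlt).2])] at h2
  linarith

theorem abs_lt_of_mem {n : ℕ} {y : Fin n → ℝ} (hy : y ∈ ball (0 : Fin n → ℝ) 1) (i : Fin n) :
    -1 < y i ∧ y i < 1 := by
  rw [mem_ball_zero_iff] at hy
  exact abs_lt.1 ((norm_le_pi_norm y i).trans_lt hy)

theorem ang_diff (i : Fin 5) : 0 < ang i.succ - ang i.castSucc ∧
    ang i.succ - ang i.castSucc < 2 * Real.pi := by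
  have hpi := Real.pi_pos
  fin_cases i
  · show 0 < Real.pi / 2 - 0 ∧ Real.pi / 2 - 0 < 2 * Real.pi
    constructor <;> linarith
  · show 0 < Real.pi - Real.pi / 2 ∧ Real.pi - Real.pi / 2 < 2 * Real.pi
    constructor <;> linarith
  · show 0 < 7 * Real.pi / 6 - Real.pi ∧ 7 * Real.pi / 6 - Real.pi < 2 * Real.pi
    constructor <;> linarith
  · show 0 < 11 * Real.pi / 6 - 7 * Real.pi / 6 ∧ 11 * Real.pi / 6 - 7 * Real.pi / 6 < 2 * Real.pi
    constructor <;> linarith
  · show 0 < 2 * Real.pi - 11 * Real.pi / 6 ∧ 2 * Real.pi - 11 * Real.pi / 6 < 2 * Real.pi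
    constructor <;> linarith

theorem fin1_ext {y y' : Fin 1 → ℝ} (h : y 0 = y' 0) : y = y' := by
  funext i
  fin_cases i
  exact h

theorem fin2_ext {y y' : Fin 2 → ℝ} (h : y 0 = y' 0) (h' : y 1 = y' 1) : y = y' := by
  funext i
  fin_cases i
  · exact h
  · exact h'

theorem core_inj (hF : FloorInjStatement) {ρ l : ℝ} (hp : Par ρ l) {a b a' b' : ℝ}
    (ha : -1 < a ∧ a < 1) (ha' : -1 < a' ∧ a' < 1)
    (h : coreCell ρ l a b = coreCell ρ l a' b') : a = a' ∧ b = b' := by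
  have hpi := Real.pi_pos
  obtain ⟨k, hk0, hk1⟩ := (hF ρ l hp).1 _ _ h
  have hk0' : Real.pi * (1 + a') / 2 = Real.pi * (1 + a) / 2 + k * Real.pi := hk0
  have hk : k = 0 := by
    have h1 : (k : ℝ) * Real.pi = Real.pi * ((a' - a) / 2) := by linarith
    have h2 : (k : ℝ) = (a' - a) / 2 := by
      have : (k : ℝ) * Real.pi = (a' - a) / 2 * Real.pi := by linarith
      exact mul_right_cancel₀ hpi.ne' this
    have h3 : (k : ℝ) < 1 := by rw [h2]; linarith [ha.1, ha'.2]
    have h4 : (-1 : ℝ) < k := by rw [h2]; linarith [ha.2, ha'.1]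
    have h5 : k < 1 := by exact_mod_cast h3
    have h6 : -1 < k := by exact_mod_cast h4
    omega
  subst hk
  have haa : a = a' := by
    have h2 : Real.pi * (1 + a') / 2 = Real.pi * (1 + a) / 2 := by
      rw [hk0']; push_cast; ring
    have h3 : Real.pi * (1 + a') = Real.pi * (1 + a) := by linarith
    have := mul_left_cancel₀ hpi.ne' h3
    linarith
  refine ⟨haa, ?_⟩
  subst haa
  simp only [zpow_zero, one_mul] at hk1
  set u := Real.pi * (1 + a) / 2 with hu
  have hk1' : -Real.cos (3 * u) + b' * √((2 * ρ / l) ^ 2 - Real.sin (3 * u) ^ 2) =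
    -Real.cos (3 * u) + b * √((2 * ρ / l) ^ 2 - Real.sin (3 * u) ^ 2) := hk1
  have hl := hp.hl
  have hl' := hp.hl'
  have hbig : 1 < (2 * ρ / l) ^ 2 := by
    have : 2 ≤ 2 * ρ / l := by rw [le_div_iff₀ hl]; linarith [hp.hρ]
    nlinarith
  have hs := Real.sin_sq_add_cos_sq (3 * u)
  have hD : 0 < (2 * ρ / l) ^ 2 - Real.sin (3 * u) ^ 2 := by nlinarith [sq_nonneg (Real.cos (3 * u))]
  have h5 := add_left_cancel hk1'
  exact (mul_right_cancel₀ (Real.sqrt_pos.2 hD).ne' h5).symm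

theorem cwInj (hF : FloorInjStatement) : CWInjStatement := by
  intro ρ l hp n i
  have hρ := hp.hρ
  have hρ' := hp.hρ'
  match n, i with
  | 0, i => exact fun y _ y' _ _ => Subsingleton.elim _ _
  | 1, Sum.inl (k, d) =>
    intro y hy y' hy' h
    have hd : (0 : ℝ) ≤ (if d then 1 else 0) ∧ (if d then (1 : ℝ) else 0) ≤ 1 := by
      cases d <;> simp
    have h1 := abs_lt_of_mem hy 0
    have h2 := abs_lt_of_mem hy' 0
    have h' : wedge ρ true k (if d then 1 else 0) (y 0) =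
      wedge ρ true k (if d then 1 else 0) (y' 0) := h
    exact fin1_ext (wedge_inj hρ hρ' true k hd.1 hd.2 h1.1.le h1.2.le h2.1.le h2.2.le hd.1 hd.2 h').2
  | 1, Sum.inr (Sum.inl (i, j)) =>
    intro y _ y' _ h
    have h' : onSheet i.castSucc (((1 + y 0) / 2) • ev j) =
      onSheet i.castSucc (((1 + y' 0) / 2) • ev j) := h
    have := onSheet_ray_inj h'
    exact fin1_ext (by linarith)
  | 1, Sum.inr (Sum.inr (Sum.inl j)) =>
    intro y _ y' _ h
    have h' : onSheet 3 ((2 * ρ + (1 - 2 * ρ) * ((1 + y 0) / 2)) • ev j) =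
      onSheet 3 ((2 * ρ + (1 - 2 * ρ) * ((1 + y' 0) / 2)) • ev j) := h
    have h1 := onSheet_ray_inj h'
    have h2 := mul_left_cancel₀ (by linarith : (1 - 2 * ρ) ≠ 0) (add_left_cancel h1)
    exact fin1_ext (by linarith)
  | 1, Sum.inr (Sum.inr (Sum.inr (Sum.inl i))) =>
    intro y hy y' hy' h
    have h' : circ ρ (ang i.castSucc + (ang i.succ - ang i.castSucc) * ((1 + y 0) / 2)) =
      circ ρ (ang i.castSucc + (ang i.succ - ang i.castSucc) * ((1 + y' 0) / 2)) := h
    obtain ⟨hd0, hd1⟩ := ang_diff i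
    have h1 := abs_lt_of_mem hy 0
    have h2 := abs_lt_of_mem hy' 0
    have h3 := circ_inj hρ h' (by
      rw [show ang i.castSucc + (ang i.succ - ang i.castSucc) * ((1 + y 0) / 2) -
        (ang i.castSucc + (ang i.succ - ang i.castSucc) * ((1 + y' 0) / 2)) =
        (ang i.succ - ang i.castSucc) * ((y 0 - y' 0) / 2) by ring, abs_mul, abs_of_pos hd0]
      have h4 : |(y 0 - y' 0) / 2| ≤ 1 := abs_le.2 ⟨by linarith [h1.1, h2.2], by
        linarith [h1.2, h2.1]⟩
      have h5 : (ang i.succ - ang i.castSucc) * |(y 0 - y' 0) / 2| ≤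
        (ang i.succ - ang i.castSucc) * 1 := mul_le_mul_of_nonneg_left h4 hd0.le
      linarith)
    have h4 := mul_left_cancel₀ hd0.ne' (add_left_cancel h3)
    exact fin1_ext (by linarith)
  | 1, Sum.inr (Sum.inr (Sum.inr (Sum.inr ()))) =>
    intro y _ y' _ h
    have h' : floorP ρ l !₂[0, -1 + y 0 * (2 * ρ / l)] =
      floorP ρ l !₂[0, -1 + y' 0 * (2 * ρ / l)] := h
    have h1 : (floorP ρ l !₂[0, -1 + y 0 * (2 * ρ / l)]).1 0 =
      (floorP ρ l !₂[0, -1 + y' 0 * (2 * ρ / l)]).1 0 := by rw [h']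
    have h2 : l * (Real.cos (2 * 0) + (-1 + y 0 * (2 * ρ / l)) * Real.cos 0) =
      l * (Real.cos (2 * 0) + (-1 + y' 0 * (2 * ρ / l)) * Real.cos 0) := h1
    have hl := hp.hl
    have h3 := mul_left_cancel₀ hl.ne' h2
    simp only [mul_zero, Real.cos_zero, mul_one] at h3
    have h4 : y 0 * (2 * ρ / l) = y' 0 * (2 * ρ / l) := by linarith
    exact fin1_ext (mul_right_cancel₀ (by positivity) h4)
  | 2, Sum.inl (o, k) =>
    intro y hy y' hy' h
    have h' : wedge ρ o k ((1 + y 0) / 2) (y 1) = wedge ρ o k ((1 + y' 0) / 2) (y' 1) := h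
    have a0 := abs_lt_of_mem hy 0
    have a1 := abs_lt_of_mem hy 1
    have b0 := abs_lt_of_mem hy' 0
    have b1 := abs_lt_of_mem hy' 1
    obtain ⟨h1, h2⟩ := wedge_inj hρ hρ' o k (by linarith) (by linarith) a1.1.le a1.2.le b1.1.le
      b1.2.le (by linarith) (by linarith) h'
    exact fin2_ext (by linarith) h2
  | 2, Sum.inr () =>
    intro y hy y' hy' h
    have h' : coreCell ρ l (y 0) (y 1) = coreCell ρ l (y' 0) (y' 1) := h
    obtain ⟨h1, h2⟩ := core_inj hF hp (abs_lt_of_mem hy 0) (abs_lt_of_mem hy' 0) h'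
    exact fin2_ext h1 h2
  | n + 3, e => exact (e : Empty).elim

end Pool.Agent.Tight.H88
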